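import Mathlib
import Pool.Agent.helper68.SF.SpecW

set_option autoImplicit false

namespace SF

theorem FV_abs (a D : ℝ) (hD : 1 ≤ D) (h : a ^ 2 ≤ D) : |a| ≤ D := by
  apply abs_le_of_sq_le_sq _ (by linarith)
  nlinarith

theorem FV : FV_stmt := by
  intro T C hT
  set D : ℝ := max C 0 + 1 with hD
  have hD1 : 1 ≤ D := by
    have := le_max_right C 0
    linarith
  have hCD : C ≤ D := by
    have := le_max_left C 0
    linarith
  obtain ⟨N, hN⟩ := exists_nat_ge (D * T + D + D * T ^ 2)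
  refine Set.Finite.subset ((Set.finite_Icc (-(N : ℤ)) N).prod (Set.finite_Icc (-(N : ℤ)) N)) ?_
  rintro ⟨v1, v2⟩ ⟨x, y, ⟨hx, hy1, hy2⟩, hip⟩
  unfold ip at hip
  simp only at hip
  have hy0 : 0 < y := lt_of_lt_of_le (by positivity) hy1
  have hyT : 1 ≤ T * y := by
    rw [div_le_iff₀ hT] at hy1
    linarith
  have h1 : ((v1 : ℝ) * y) ^ 2 ≤ D := by nlinarith [sq_nonneg ((v1 : ℝ) * x + v2)]
  have h2 : ((v1 : ℝ) * x + v2) ^ 2 ≤ D := by nlinarith [sq_nonneg ((v1 : ℝ) * y)]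
  have h1' := FV_abs _ D hD1 h1
  have h2' := FV_abs _ D hD1 h2
  have h3 : |(v1 : ℝ)| ≤ D * T := by
    rw [abs_mul, abs_of_pos hy0] at h1'
    calc |(v1 : ℝ)| = |(v1 : ℝ)| * 1 := by ring
      _ ≤ |(v1 : ℝ)| * (T * y) := mul_le_mul_of_nonneg_left hyT (abs_nonneg _)
      _ = (|(v1 : ℝ)| * y) * T := by ring
      _ ≤ D * T := mul_le_mul_of_nonneg_right h1' hT.le
  have h4 : |(v1 : ℝ) * x| ≤ D * T ^ 2 := by
    rw [abs_mul]
    calc |(v1 : ℝ)| * |x| ≤ (D * T) * T := mul_le_mul h3 hx (abs_nonneg _) (by positivity)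
      _ = D * T ^ 2 := by ring
  have h5 : |(v2 : ℝ)| ≤ D + D * T ^ 2 := by
    have e : (v2 : ℝ) = ((v1 : ℝ) * x + v2) - (v1 : ℝ) * x := by ring
    rw [e]
    exact (abs_sub _ _).trans (add_le_add h2' h4)
  have hDT : 0 ≤ D * T := by positivity
  have hDT2 : 0 ≤ D * T ^ 2 := by positivity
  have h6 : |(v1 : ℝ)| ≤ N := by linarith
  have h7 : |(v2 : ℝ)| ≤ N := by linarith
  rw [abs_le] at h6 h7
  refine Set.mk_mem_prod ⟨?_, ?_⟩ ⟨?_, ?_⟩
  · exact_mod_cast h6.1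
  · exact_mod_cast h6.2
  · exact_mod_cast h7.1
  · exact_mod_cast h7.2

end SF
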