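import Mathlib
import Pool.Agent.helper68.SF.SpecJ

set_option autoImplicit false

namespace SF

open MeasureTheory Set
open scoped ContDiff

theorem JB (hD : JFD_stmt) (h1 : J1_stmt) (h2 : J2_stmt) : JB_stmt := by
  obtain ⟨C, hC, hD⟩ := hD
  refine ⟨2 * C, by positivity, fun g B hg hB l l' hl hl' => ?_⟩
  have hB0 : 0 ≤ B := le_trans (abs_nonneg _) (hB 0 (Nat.zero_le _) 0)
  have hF := hD g B hg hB
  have e : ∀ a b : ℝ, jj g a b = jf (fun s y => dX (ww g) s 0 y) a b := fun a b => rfl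
  obtain ⟨-, hb, ha, -, -⟩ := h1 _ _ _ l l' hF hl hl'
  refine ⟨?_, ?_, ?_⟩
  · rw [e]
    refine hb.trans ?_
    have h3 : 0 ≤ 1 / l + 1 / l' := by positivity
    have h4 : 0 ≤ C * B := by positivity
    nlinarith [mul_nonneg h4 h3]
  · rw [e, e]
    exact ha
  · intro m hm hml
    rw [e, e]
    refine (h2 _ _ _ l m l' hF hl hm hml).trans (le_of_eq ?_)
    ring

end SF
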