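import Mathlib
import Pool.Agent.helper68.SF.SpecJ

set_option autoImplicit false

namespace SF

open MeasureTheory Set
open scoped ContDiff

theorem JFD_cont (f : ℝ → ℝ → ℝ → ℝ) (hf : Sm f) :
    ContinuousOn (fun p : ℝ × ℝ => f p.1 0 p.2) {p | 0 < p.2} := by
  have h1 : ContinuousOn (fun p : ℝ × ℝ × ℝ => f p.1 p.2.1 p.2.2) {p | 0 < p.2.2} :=
    ContDiffOn.continuousOn hf
  have h2 : Continuous (fun p : ℝ × ℝ => ((p.1, (0 : ℝ), p.2) : ℝ × ℝ × ℝ)) := by fun_prop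
  exact h1.comp h2.continuousOn (fun p hp => hp)

theorem JFD (hEA : EA_stmt) (hWS : WS_stmt) (hBS : BS_stmt) (hPD : PD_stmt) : JFD_stmt := by
  obtain ⟨C, hC, hEA⟩ := hEA
  refine ⟨C, hC, fun g B hg hB => ?_⟩
  have hDg := (hPD g hg).1
  obtain ⟨hsm, -, hds, -, -⟩ := hWS g hg
  obtain ⟨hsm', -, -, -, -⟩ := hWS (DD g) hDg
  obtain ⟨-, hX, -, h4⟩ := hBS (ww g) hsm
  obtain ⟨-, hX', -, -⟩ := hBS (ww (DD g)) hsm'
  obtain ⟨-, -, -, h5⟩ := hBS (dX (ww g)) hX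
  refine ⟨JFD_cont _ hX, JFD_cont _ hX', ?_, ?_, ?_, ?_⟩
  · intro s y hy
    have h6 := (h5 s 0 y hy).1
    have h7 : dS (dX (ww g)) s 0 y = dX (ww (DD g)) s 0 y := by
      rw [(h4 s 0 y hy).2.2.2.1]
      unfold dX
      congr 1
      funext t
      exact hds s t y hy
    rw [h7] at h6
    exact h6
  · intro s y hy
    exact (hEA g B hg hB s y hy).1
  · intro s y hy
    exact (hEA g B hg hB s y hy).2.1
  · intro s y hy
    exact (hEA g B hg hB s y hy).2.2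

end SF
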