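import Mathlib
import Pool.Agent.helper68.SF.SpecW

set_option autoImplicit false

namespace SF

open scoped ContDiff

theorem K1_sm {f h : ℝ → ℝ → ℝ → ℝ} (hfh : ∀ s x y, 0 < y → f s x y = h s x y) (hh : Sm h) :
    Sm f := by
  refine ContDiffOn.congr hh ?_
  intro p hp
  exact hfh p.1 p.2.1 p.2.2 hp

theorem K1_dS {f h : ℝ → ℝ → ℝ → ℝ} (hfh : ∀ s x y, 0 < y → f s x y = h s x y) :
    ∀ s x y, 0 < y → dS f s x y = dS h s x y := by
  intro s x y hy
  unfold dS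
  congr 1
  funext t
  exact hfh t x y hy

theorem K1_dX {f h : ℝ → ℝ → ℝ → ℝ} (hfh : ∀ s x y, 0 < y → f s x y = h s x y) :
    ∀ s x y, 0 < y → dX f s x y = dX h s x y := by
  intro s x y hy
  unfold dX
  congr 1
  funext t
  exact hfh s t y hy

theorem K1_dY {f h : ℝ → ℝ → ℝ → ℝ} (hfh : ∀ s x y, 0 < y → f s x y = h s x y) :
    ∀ s x y, 0 < y → dY f s x y = dY h s x y := by
  intro s x y hy
  unfold dY
  apply Filter.EventuallyEq.deriv_eq
  filter_upwards [lt_mem_nhds hy] with t ht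
  exact hfh s x t ht

theorem K1_wv {f h : ℝ → ℝ → ℝ → ℝ} (hfh : ∀ s x y, 0 < y → f s x y = h s x y) (hh : Wv h) :
    Wv f := by
  intro s x y hy
  rw [K1_dS (K1_dS hfh) s x y hy, K1_dX (K1_dX hfh) s x y hy, K1_dY (K1_dY hfh) s x y hy,
    hfh s x y hy]
  exact hh s x y hy

theorem K1_odd (hNO : NO_stmt) (g : ℝ → ℝ) (s x y : ℝ) : k1 g s (-x) y = -k1 g s x y := by
  unfold k1
  rw [neg_sq, neg_div, hNO]
  ring

theorem K1_val (hN3 : N3_stmt) (g : ℝ → ℝ) (hg : Prof g) (s x y : ℝ) (hx : 0 < x) (hy : 0 < y)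
    (hA : 3 ≤ Real.exp (2 * s) / (25 * y)) : k1 g s x y = -(1 / 2) * b1 g s x y := by
  unfold k1 b1
  have hr2 : 0 < x ^ 2 + y ^ 2 := by positivity
  have hr : 0 < √(x ^ 2 + y ^ 2) := Real.sqrt_pos.2 hr2
  have hsq : √(x ^ 2 + y ^ 2) ^ 2 = x ^ 2 + y ^ 2 := Real.sq_sqrt hr2.le
  have hc0 : 0 < x / √(x ^ 2 + y ^ 2) := div_pos hx hr
  have hc1 : x / √(x ^ 2 + y ^ 2) ≤ 1 := by
    rw [div_le_one hr]
    apply Real.le_sqrt_of_sq_le
    nlinarith [sq_nonneg y]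
  rw [hN3 g hg _ _ hA hc0 hc1]
  have e : Real.exp (2 * s) / (25 * y) * (1 - (x / √(x ^ 2 + y ^ 2)) ^ 2) =
      Real.exp (2 * s) * y / (25 * (x ^ 2 + y ^ 2)) := by
    rw [div_pow, hsq]
    field_simp
    ring
  rw [e]
  have hpi : Real.pi ≠ 0 := Real.pi_ne_zero
  field_simp

theorem K1_b1_even (g : ℝ → ℝ) (s x y : ℝ) : b1 g s (-x) y = b1 g s x y := by
  unfold b1
  rw [neg_sq]

theorem K1 (hK0 : K0_stmt) (hK01 : K01_stmt) (hMOB : MOB_stmt) (hN3 : N3_stmt) (hNO : NO_stmt) :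
    K1_stmt := by
  intro g hg
  obtain ⟨hsm, hwv, hds⟩ := hK0 g hg
  have hM := hMOB 0 (-1) 25 0 (by norm_num) (k0 g) hsm hwv
  have heq : ∀ s x y, 0 < y → k1 g s x y = Mb 0 (-1) 25 0 (k0 g) s x y := by
    intro s x y hy
    have hr2 : x ^ 2 + y ^ 2 ≠ 0 := by positivity
    rw [hK01 g s x y hy]
    unfold Mb Xr
    have hd : (25 * x + 0) ^ 2 + (25 * y) ^ 2 = 625 * (x ^ 2 + y ^ 2) := by ring
    have e1 : ((0 * x + (-1)) * (25 * x + 0) + 0 * 25 * y ^ 2) / ((25 * x + 0) ^ 2 + (25 * y) ^ 2) =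
        -(x / (25 * (x ^ 2 + y ^ 2))) := by
      rw [hd]
      field_simp
      ring
    have e2 : (0 * 0 - (-1) * 25) * y / ((25 * x + 0) ^ 2 + (25 * y) ^ 2) =
        y / (25 * (x ^ 2 + y ^ 2)) := by
      rw [hd]
      field_simp
      ring
    rw [e1, e2]
  refine ⟨K1_sm heq hM.1, K1_wv heq hM.2, ?_, K1_odd hNO g, ?_⟩
  · intro s x y hy
    have hY : 0 < y / (25 * (x ^ 2 + y ^ 2)) := by positivity
    rw [hK01 (DD g) s x y hy, ← hds _ _ _ hY]
    unfold dS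
    congr 1
    funext t
    exact hK01 g t x y hy
  · intro s x y hy hA
    rcases lt_trichotomy x 0 with hx | hx | hx
    · have h1 := K1_odd hNO g s (-x) y
      rw [neg_neg] at h1
      rw [h1, K1_val hN3 g hg s (-x) y (by linarith) hy hA, K1_b1_even, Real.sign_of_neg hx]
      ring
    · subst hx
      have h1 := K1_odd hNO g s 0 y
      rw [neg_zero] at h1
      rw [Real.sign_zero]
      linarith
    · rw [K1_val hN3 g hg s x y hx hy hA, Real.sign_of_pos hx]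
      ring

end SF
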