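import Mathlib
import Pool.Agent.helper68.SF.SpecE

set_option autoImplicit false

namespace SF

open MeasureTheory
open scoped ContDiff ENNReal

theorem POI_cs (g : ℝ → ℝ) (hg : Continuous g) (a b : ℝ) (hab : a ≤ b) :
    (∫ t in a..b, g t) ^ 2 ≤ (b - a) * ∫ t in a..b, g t ^ 2 := by
  rcases hab.eq_or_lt with h | h
  · subst h
    simp
  · set I := ∫ t in a..b, g t with hI
    set c := I / (b - a) with hc
    have hba : 0 < b - a := by linarith
    have h1 : 0 ≤ ∫ t in a..b, (g t - c) ^ 2 :=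
      intervalIntegral.integral_nonneg hab (fun _ _ => sq_nonneg _)
    have h2 : ∫ t in a..b, (g t - c) ^ 2 = (∫ t in a..b, g t ^ 2) - 2 * c * I + c ^ 2 * (b - a) := by
      have e : ∀ t, (g t - c) ^ 2 = g t ^ 2 - 2 * c * g t + c ^ 2 := fun t => by ring
      simp only [e]
      rw [intervalIntegral.integral_add, intervalIntegral.integral_sub,
        intervalIntegral.integral_const_mul, intervalIntegral.integral_const, smul_eq_mul]
      · ring
      · exact (hg.pow 2).intervalIntegrable _ _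
      · exact (continuous_const.mul hg).intervalIntegrable _ _
      · exact ((hg.pow 2).sub (continuous_const.mul hg)).intervalIntegrable _ _
      · exact continuous_const.intervalIntegrable _ _
    have h3 : c * (b - a) = I := by rw [hc]; field_simp
    rw [h2] at h1
    have h4 := mul_nonneg hba.le h1
    have h5 : (b - a) * ((∫ t in a..b, g t ^ 2) - 2 * c * I + c ^ 2 * (b - a)) =
        (b - a) * (∫ t in a..b, g t ^ 2) - 2 * (c * (b - a)) * I + (c * (b - a)) ^ 2 := by ring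
    rw [h5, h3] at h4
    nlinarith [h4]

theorem POI_pt (F F' : ℝ → ℝ) (hF' : Continuous F') (hd : ∀ x, HasDerivAt F (F' x) x)
    (h0 : F (1 / 2) = 0) (x : ℝ) (hx : x < 1 / 2) :
    ENNReal.ofReal (F x ^ 2) ≤
      ENNReal.ofReal (1 / 2 - x) * ∫⁻ t in Set.Ico x (1 / 2), ENNReal.ofReal (F' t ^ 2) := by
  have h1 : ∫ t in x..(1 / 2), F' t = F (1 / 2) - F x :=
    intervalIntegral.integral_eq_sub_of_hasDerivAt (fun t _ => hd t)
      (hF'.intervalIntegrable _ _)
  have h2 := POI_cs F' hF' x (1 / 2) hx.le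
  rw [h1, h0, zero_sub, neg_sq] at h2
  have h3 : ∫⁻ t in Set.Ico x (1 / 2), ENNReal.ofReal (F' t ^ 2) =
      ENNReal.ofReal (∫ t in x..(1 / 2), F' t ^ 2) := by
    rw [intervalIntegral.integral_of_le hx.le, ← restrict_Ico_eq_restrict_Ioc,
      ofReal_integral_eq_lintegral_ofReal]
    · exact ((hF'.pow 2).integrableOn_Icc).mono_set Set.Ico_subset_Icc_self
    · exact Filter.Eventually.of_forall fun t => sq_nonneg _
  rw [h3, ← ENNReal.ofReal_mul (by linarith)]
  exact ENNReal.ofReal_le_ofReal h2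

theorem POI_slice (F F' : ℝ → ℝ) (hF' : Continuous F') (hd : ∀ x, HasDerivAt F (F' x) x)
    (h0 : F (1 / 2) = 0) (S : Set ℝ) (hS : MeasurableSet S) (hS1 : S ⊆ Set.Ioo 0 (1 / 2))
    (hS2 : ∀ x ∈ S, Set.Ico x (1 / 2) ⊆ S) :
    ∫⁻ x in S, ENNReal.ofReal (F x ^ 2) ≤
      ENNReal.ofReal (1 / 8) * ∫⁻ x in S, ENNReal.ofReal (F' x ^ 2) := by
  set I := ∫⁻ x in S, ENNReal.ofReal (F' x ^ 2) with hI
  have h1 : ∫⁻ x in S, ENNReal.ofReal (F x ^ 2) ≤ ∫⁻ x in S, ENNReal.ofReal (1 / 2 - x) * I := by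
    refine setLIntegral_mono' hS fun x hx => ?_
    refine (POI_pt F F' hF' hd h0 x (hS1 hx).2).trans ?_
    exact mul_le_mul_right (lintegral_mono_set (hS2 x hx)) _
  refine h1.trans ?_
  rw [lintegral_mul_const _ (by fun_prop)]
  refine mul_le_mul_left ?_ I
  refine (lintegral_mono_set hS1).trans ?_
  have h2 : ∫⁻ x in Set.Ioo (0 : ℝ) (1 / 2), ENNReal.ofReal (1 / 2 - x) =
      ENNReal.ofReal (∫ x in Set.Ioo (0 : ℝ) (1 / 2), (1 / 2 - x)) := by
    rw [ofReal_integral_eq_lintegral_ofReal]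
    · exact ((continuous_const.sub continuous_id).integrableOn_Icc).mono_set Set.Ioo_subset_Icc_self
    · refine (ae_restrict_iff' measurableSet_Ioo).2 (Filter.Eventually.of_forall fun x hx => ?_)
      have := hx.2
      simp only [Pi.zero_apply]
      linarith
  have h3 : ∫ x in Set.Ioo (0 : ℝ) (1 / 2), (1 / 2 - x) = 1 / 8 := by
    rw [← integral_Ioc_eq_integral_Ioo, ← intervalIntegral.integral_of_le (by norm_num)]
    have h4 : ∫ x in (0 : ℝ)..(1 / 2), (1 / 2 - x) =
        (∫ x in (0 : ℝ)..(1 / 2), (1 / 2 : ℝ)) - ∫ x in (0 : ℝ)..(1 / 2), x :=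
      intervalIntegral.integral_sub (continuous_const.intervalIntegrable _ _)
        (continuous_id.intervalIntegrable _ _)
    rw [h4, intervalIntegral.integral_const, integral_id]
    norm_num
  rw [h2, h3]

theorem POI_open : IsOpen Dm := by
  have e : Dm = {p : ℝ × ℝ | 0 < p.1} ∩ ({p | p.1 < 1 / 2} ∩ ({p | 0 < p.2} ∩
      {p | 1 < p.1 ^ 2 + p.2 ^ 2})) := by
    ext p
    simp only [Dm, Set.mem_ofPred_eq, Set.mem_inter_iff]
  rw [e]
  refine (isOpen_lt (by fun_prop) (by fun_prop)).inter ((isOpen_lt (by fun_prop) (by fun_prop)).inter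
    ((isOpen_lt (by fun_prop) (by fun_prop)).inter (isOpen_lt (by fun_prop) (by fun_prop))))

theorem POI_meas (k : ℕ) (F : ℝ × ℝ → ℝ) (hF : ContinuousOn F {p | 0 < p.2}) :
    ContinuousOn (fun p : ℝ × ℝ => p.2 ^ k * F p ^ 2) Dm := by
  have h : Dm ⊆ {p : ℝ × ℝ | 0 < p.2} := fun p hp => hp.2.2.1
  have h1 := hF.mono h
  exact (ContinuousOn.pow continuous_snd.continuousOn k).mul (h1.pow 2)

theorem POI_lint (k : ℕ) (F : ℝ × ℝ → ℝ) (hF : ContinuousOn F {p | 0 < p.2}) :
    ∫⁻ p in Dm, ENNReal.ofReal (p.2 ^ k * F p ^ 2) =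
      ∫⁻ y, ENNReal.ofReal (y ^ k) * ∫⁻ x in {x | (x, y) ∈ Dm}, ENNReal.ofReal (F (x, y) ^ 2) := by
  have hm : MeasurableSet Dm := POI_open.measurableSet
  rw [← lintegral_indicator hm]
  have hae : AEMeasurable (Dm.indicator fun p : ℝ × ℝ => ENNReal.ofReal (p.2 ^ k * F p ^ 2))
      (volume.prod volume) := by
    rw [aemeasurable_indicator_iff hm]
    exact ((POI_meas k F hF).aemeasurable hm).ennreal_ofReal
  rw [Measure.volume_eq_prod, lintegral_prod_symm _ hae]
  refine lintegral_congr fun y => ?_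
  have hSy : MeasurableSet {x | (x, y) ∈ Dm} :=
    (POI_open.preimage (Continuous.prodMk_left y)).measurableSet
  have e1 : (fun x => (Dm.indicator fun p : ℝ × ℝ => ENNReal.ofReal (p.2 ^ k * F p ^ 2)) (x, y)) =
      {x | (x, y) ∈ Dm}.indicator (fun x => ENNReal.ofReal (y ^ k) * ENNReal.ofReal (F (x, y) ^ 2)) := by
    funext x
    by_cases hx : (x, y) ∈ Dm
    · rw [Set.indicator_of_mem hx, Set.indicator_of_mem (show x ∈ {x | (x, y) ∈ Dm} from hx)]
      have hy : 0 < y := hx.2.2.1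
      exact ENNReal.ofReal_mul (by positivity)
    · rw [Set.indicator_of_notMem hx,
        Set.indicator_of_notMem (show ¬ x ∈ {x | (x, y) ∈ Dm} from hx)]
  rw [e1, lintegral_indicator hSy, lintegral_const_mul'' _ ?_]
  by_cases hy : 0 < y
  · have h1 : ContinuousOn (fun x : ℝ => F (x, y)) Set.univ :=
      hF.comp (Continuous.prodMk_left y).continuousOn (fun x _ => hy)
    rw [continuousOn_univ] at h1
    exact ((h1.pow 2).measurable.ennreal_ofReal).aemeasurable
  · have h1 : {x | (x, y) ∈ Dm} = ∅ := by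
      ext x
      simp only [Set.mem_ofPred_eq, Set.mem_empty_iff_false, iff_false]
      exact fun h => hy h.2.2.1
    rw [h1, Measure.restrict_empty]
    exact aemeasurable_zero_measure

theorem POI : POI_stmt := by
  intro k F F' hF hF' hd h0 hint
  have hm : MeasurableSet Dm := POI_open.measurableSet
  have hle : ∫⁻ p in Dm, ENNReal.ofReal (p.2 ^ k * F p ^ 2) ≤
      ENNReal.ofReal (1 / 8) * ∫⁻ p in Dm, ENNReal.ofReal (p.2 ^ k * F' p ^ 2) := by
    rw [POI_lint k F hF, POI_lint k F' hF', ← lintegral_const_mul' _ _ ENNReal.ofReal_ne_top]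
    refine lintegral_mono fun y => ?_
    by_cases hy : 0 < y
    · have hSy : MeasurableSet {x | (x, y) ∈ Dm} :=
        (POI_open.preimage (Continuous.prodMk_left y)).measurableSet
      have hc : Continuous (fun x : ℝ => F' (x, y)) := by
        rw [← continuousOn_univ]
        exact hF'.comp (Continuous.prodMk_left y).continuousOn (fun x _ => hy)
      have h1 := POI_slice (fun x => F (x, y)) (fun x => F' (x, y)) hc (fun x => hd x y hy) (h0 y hy)
        {x | (x, y) ∈ Dm} hSy (fun x hx => ⟨hx.1, hx.2.1⟩) ?_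
      · calc ENNReal.ofReal (y ^ k) * ∫⁻ x in {x | (x, y) ∈ Dm}, ENNReal.ofReal (F (x, y) ^ 2)
            ≤ ENNReal.ofReal (y ^ k) * (ENNReal.ofReal (1 / 8) *
              ∫⁻ x in {x | (x, y) ∈ Dm}, ENNReal.ofReal (F' (x, y) ^ 2)) :=
              mul_le_mul_right h1 _
          _ = _ := by ring
      · rintro x ⟨hx1, hx2, hx3, hx4⟩ t ⟨ht1, ht2⟩
        refine ⟨lt_of_lt_of_le hx1 ht1, ht2, hx3, ?_⟩
        have h5 : x ^ 2 ≤ t ^ 2 := pow_le_pow_left₀ hx1.le ht1 2
        simp only at hx4 ⊢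
        linarith
    · have h1 : {x | (x, y) ∈ Dm} = ∅ := by
        ext x
        simp only [Set.mem_ofPred_eq, Set.mem_empty_iff_false, iff_false]
        exact fun h => hy h.2.2.1
      rw [h1]
      simp
  have hnn : ∀ G : ℝ × ℝ → ℝ, 0 ≤ᵐ[volume.restrict Dm] fun p : ℝ × ℝ => p.2 ^ k * G p ^ 2 := by
    intro G
    refine (ae_restrict_iff' hm).2 (Filter.Eventually.of_forall fun p hp => ?_)
    have hy : 0 < p.2 := hp.2.2.1
    simp only [Pi.zero_apply]
    positivity
  have hfin : ∫⁻ p in Dm, ENNReal.ofReal (p.2 ^ k * F' p ^ 2) ≠ ⊤ := by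
    have h1 := hint.2
    rw [hasFiniteIntegral_iff_ofReal (hnn F')] at h1
    exact h1.ne
  have hae : AEStronglyMeasurable (fun p : ℝ × ℝ => p.2 ^ k * F p ^ 2) (volume.restrict Dm) :=
    (POI_meas k F hF).aestronglyMeasurable hm
  have hfin2 : ∫⁻ p in Dm, ENNReal.ofReal (p.2 ^ k * F p ^ 2) < ⊤ :=
    lt_of_le_of_lt hle (ENNReal.mul_lt_top ENNReal.ofReal_lt_top (lt_top_iff_ne_top.2 hfin))
  refine ⟨⟨hae, ?_⟩, ?_⟩
  · rw [hasFiniteIntegral_iff_ofReal (hnn F)]
    exact hfin2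
  · rw [integral_eq_lintegral_of_nonneg_ae (hnn F) hae,
      integral_eq_lintegral_of_nonneg_ae (hnn F') hint.1]
    have h1 := ENNReal.toReal_mono (ENNReal.mul_ne_top ENNReal.ofReal_ne_top hfin) hle
    rw [ENNReal.toReal_mul, ENNReal.toReal_ofReal (by norm_num)] at h1
    exact h1

end SF
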