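import Pool.Agent.helper72.SF.SpecT
import Pool.Agent.helper46.AM.XW2

set_option autoImplicit false

namespace SF

open Pool.Agent.helper72.Sq AM Matrix

theorem T2_a3b (A B : SpecialLinearGroup (Fin 2) ℝ) :
    tr (A ^ 3 * B) = (tr A ^ 2 - 1) * tr (A * B) - tr A * tr B := by
  have h2 : tr (A ^ 2 * B) = tr A * tr (A * B) - tr B := by
    have e : A ^ 2 * B = A * (A * B) := by rw [pow_two]; simp only [mul_assoc]
    rw [e, tr_mul_mul]
  have h1 : tr (A ^ 3 * B) = tr A * tr (A ^ 2 * B) - tr (A * B) := by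
    have e : A ^ 3 * B = A * (A * (A * B)) := by
      rw [pow_succ' A 2, pow_two]; simp only [mul_assoc]
    have e' : A ^ 2 * B = A * (A * B) := by rw [pow_two]; simp only [mul_assoc]
    rw [e, e', tr_mul_mul A (A * B)]
  rw [h1, h2]
  ring

theorem T2_ab2 (A B : SpecialLinearGroup (Fin 2) ℝ) :
    tr (A * B ^ 2) = tr B * tr (A * B) - tr A := by
  have e : tr (A * B ^ 2) = tr (B * (B * A)) := by
    rw [tr_comm A, pow_two, mul_assoc]
  rw [e, tr_mul_mul, tr_comm B A]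

theorem T2_id (A B : SpecialLinearGroup (Fin 2) ℝ) :
    tr (A ^ 4 * B ^ 3) = tr (A ^ 3 * B) * tr (A * B ^ 2) -
      tr (A ^ 3 * (B⁻¹) ^ 2 * (A ^ 1)⁻¹ * ((B⁻¹) ^ 1)⁻¹) := by
  have h1 : tr (A ^ 4 * B ^ 3) = tr ((B * A ^ 3) * (A * B ^ 2)) := by
    rw [tr_comm (A ^ 4) (B ^ 3)]
    have e : (B * A ^ 3) * (A * B ^ 2) = (B * A ^ 4) * B ^ 2 := by
      rw [pow_succ A 3]; simp only [mul_assoc]
    rw [e, tr_comm (B * A ^ 4), ← mul_assoc, ← pow_succ]
  have h2 : tr ((B * A ^ 3) * (A * B ^ 2)⁻¹) =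
      tr (A ^ 3 * (B⁻¹) ^ 2 * (A ^ 1)⁻¹ * ((B⁻¹) ^ 1)⁻¹) := by
    have e : (B * A ^ 3) * (A * B ^ 2)⁻¹ = B * (A ^ 3 * (B⁻¹) ^ 2 * (A ^ 1)⁻¹) := by
      rw [_root_.mul_inv_rev, pow_one, inv_pow]; simp only [mul_assoc]
    rw [e, tr_comm B, pow_one, pow_one, inv_inv]
  rw [h1, XW2_tr, h2, tr_comm B]

theorem T2 (hT1 : T1_stmt) (hXT : XT_stmt) : T2_stmt := by
  intro κ hκ
  obtain ⟨C, hC1, hT1⟩ := hT1 κ hκ
  have hM : 1 ≤ 1 + (18 + κ) * C := by nlinarith
  refine ⟨2 * Real.log (1 + (18 + κ) * C) + 4 * Real.log 2, ?_⟩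
  intro A B hA hB hAB hAiB hτ hV hW
  have hz : tr (A⁻¹ * B) = tr A * tr B - tr (A * B) := by
    have h1 := XW2_tr B A
    rw [tr_comm B A, tr_comm B A⁻¹] at h1
    linarith
  have hrel : tr A * tr B * tr (A * B) - tr A ^ 2 - tr B ^ 2 - tr (A * B) ^ 2 = κ := by
    have h1 := tr_commutator A B
    rw [hτ] at h1
    linarith
  have hXT' := hXT A B⁻¹ (-2 - κ) hA.le (by rw [tr_inv]; exact hB.le) (by
    have e : A * B⁻¹ * A⁻¹ * B⁻¹⁻¹ = A * B⁻¹ * A⁻¹ * B := by rw [inv_inv]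
    have h2 : tr (A * B⁻¹ * A⁻¹ * B) = tr ((A * B * A⁻¹ * B⁻¹)⁻¹) := by
      have e2 : (A * B * A⁻¹ * B⁻¹)⁻¹ = B * (A * B⁻¹ * A⁻¹) := by group
      rw [e2, tr_comm B]
    rw [e, h2, tr_inv, hτ]) (by linarith) 3 2 1 1 (by norm_num) (by norm_num) (by norm_num)
      (by norm_num)
  have hid := T2_id A B
  set t' := tr (A ^ 3 * (B⁻¹) ^ 2 * (A ^ 1)⁻¹ * ((B⁻¹) ^ 1)⁻¹) with ht'
  have hsn : sn (tr A) 3 * sn (tr B⁻¹) 2 * sn (tr A) 1 * sn (tr B⁻¹) 1 =
      (tr A ^ 2 - 1) * tr B := by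
    rw [tr_inv]
    simp only [sn]
    ring
  rw [hsn] at hXT'
  have hv := T2_a3b A B
  have hw := T2_ab2 A B
  have hT := (hT1 (tr A) (tr B) (tr (A * B)) hA hB hAB (by rw [← hz]; exact hAiB) hrel).2.2
  rw [← hv, ← hw] at hT
  set x := tr A with hx
  set y := tr B with hy
  set v := tr (A ^ 3 * B) with hvdef
  set w := tr (A * B ^ 2) with hwdef
  set T := tr (A ^ 4 * B ^ 3) with hTdef
  have hxy : 0 ≤ (x ^ 2 - 1) * y := by
    have : 0 ≤ x ^ 2 - 1 := by nlinarith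
    exact mul_nonneg this (by linarith)
  have hxy2 : (x ^ 2 - 1) * y ≤ C * (v * w) := by
    have : (x ^ 2 - 1) * y ≤ x ^ 2 * y := by nlinarith
    linarith
  have hvw4 : 4 < v * w := by nlinarith
  have hTlo : v * w ≤ T := by
    have h3 := hXT'.1
    nlinarith [mul_nonneg hκ hxy]
  have hThi : T ≤ (1 + (18 + κ) * C) * (v * w) := by
    have h3 := hXT'.2
    have h4 : (18 + κ) * ((x ^ 2 - 1) * y) ≤ (18 + κ) * (C * (v * w)) :=
      mul_le_mul_of_nonneg_left hxy2 (by linarith)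
    have h5 : -((-2 - κ - 16) * ((x ^ 2 - 1) * y)) = (18 + κ) * ((x ^ 2 - 1) * y) := by ring
    have h6 : (1 + (18 + κ) * C) * (v * w) = v * w + (18 + κ) * (C * (v * w)) := by ring
    linarith
  have hT4 : 2 < T := by linarith
  have hlenT : 2 * Real.arcosh (|T| / 2) = len T := by
    unfold len
    rw [abs_of_pos (by linarith)]
  have hec : ec (x, y, tr (A * B)) = len v + len w := by
    unfold ec
    rw [hv, hw]
  rw [hlenT, hec]
  have b1 := two_log_le_len hT4.le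
  have b2 := len_le_two_log hT4.le
  have b3 := two_log_le_len hV.le
  have b4 := len_le_two_log hV.le
  have b5 := two_log_le_len hW.le
  have b6 := len_le_two_log hW.le
  have l1 : Real.log T ≤ Real.log (1 + (18 + κ) * C) + (Real.log v + Real.log w) := by
    rw [← Real.log_mul (by linarith) (by linarith), ← Real.log_mul (by linarith) (by nlinarith)]
    exact Real.log_le_log (by linarith) hThi
  have l2 : Real.log v + Real.log w ≤ Real.log T := by
    rw [← Real.log_mul (by linarith) (by linarith)]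
    exact Real.log_le_log (by linarith) hTlo
  have l3 : 0 ≤ Real.log (1 + (18 + κ) * C) := Real.log_nonneg hM
  have l4 : 0 ≤ Real.log 2 := Real.log_nonneg (by norm_num)
  rw [Real.log_div (by linarith) (by norm_num)] at b1 b3 b5
  rw [abs_le]
  constructor <;> linarith

end SF
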